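import Mathlib
import Pool.Agent.helper19.FDegree

set_option autoImplicit false
set_option maxHeartbeats 1000000

/-!
For every `n ≥ 3` there are infinitely many `K_n`-irregular graphs.

With `n = t + 2`, take a clique `A = {0, …, t + K}` and independent vertices `b_0, …, b_{K-1}`,
where `b_j` is joined to a set `S_j` of exactly `t + 1 + j` vertices of `A`: an initial segment,
except that for `1 ≤ j ≤ t` the vertex `j - 1` is replaced by the vertex `t + 1 + K - j`.
-/

namespace Pool.Agent.Results.MP_5484c7_co.CliqueIrregular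

open Pool.Agent.H19 Finset

/-- membership `a ∈ S_j` -/
def inS (t K j a : ℕ) : Prop :=
  (¬ (1 ≤ j ∧ j ≤ t) ∧ a < t + 1 + j) ∨
    ((1 ≤ j ∧ j ≤ t) ∧ ((a < t + 1 + j ∧ a + 1 ≠ j) ∨ a + j = t + 1 + K))

instance (t K j a : ℕ) : Decidable (inS t K j a) := by unfold inS; infer_instance

/-- The graph. -/
def gr (t K : ℕ) : SimpleGraph (Fin (t + 1 + K) ⊕ Fin K) where
  Adj x y := match x, y with
    | Sum.inl a, Sum.inl b => a ≠ b
    | Sum.inl a, Sum.inr j => inS t K j.val a.val
    | Sum.inr j, Sum.inl a => inS t K j.val a.val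
    | Sum.inr _, Sum.inr _ => False
  symm := ⟨by
    rintro (a | a) (b | b) h
    · exact Ne.symm h
    · exact h
    · exact h
    · exact h⟩
  loopless := ⟨by
    rintro (a | a) h
    · exact h rfl
    · exact h⟩

lemma adj_ll (t K : ℕ) (a b : Fin (t + 1 + K)) :
    (gr t K).Adj (Sum.inl a) (Sum.inl b) ↔ a ≠ b := Iff.rfl
lemma adj_lr (t K : ℕ) (a : Fin (t + 1 + K)) (j : Fin K) :
    (gr t K).Adj (Sum.inl a) (Sum.inr j) ↔ inS t K j.val a.val := Iff.rfl
lemma adj_rl (t K : ℕ) (a : Fin (t + 1 + K)) (j : Fin K) :
    (gr t K).Adj (Sum.inr j) (Sum.inl a) ↔ inS t K j.val a.val := Iff.rfl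
lemma adj_rr (t K : ℕ) (i j : Fin K) :
    ¬ (gr t K).Adj (Sum.inr i) (Sum.inr j) := fun h => h

/-- `S_j` as a finite set -/
def SF (t K : ℕ) (j : Fin K) : Finset (Fin (t + 1 + K)) :=
  univ.filter fun a => inS t K j.val a.val

lemma card_SF (t K : ℕ) (hK : 2 * t + 1 ≤ K) (j : Fin K) : (SF t K j).card = t + 1 + j.val := by
  have h1 : (SF t K j).card = ((range (t + 1 + K)).filter (inS t K j.val)).card := by
    have : (SF t K j).map Fin.valEmbedding = (range (t + 1 + K)).filter (inS t K j.val) := by
      ext a
      simp only [SF, mem_map, mem_filter, mem_univ, true_and, Fin.valEmbedding_apply, mem_range]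
      constructor
      · rintro ⟨y, hy, rfl⟩
        exact ⟨y.2, hy⟩
      · rintro ⟨h1, h2⟩
        exact ⟨⟨a, h1⟩, h2, rfl⟩
    rw [← this, card_map]
  rw [h1]
  have hj := j.2
  by_cases hjt : 1 ≤ j.val ∧ j.val ≤ t
  · have h2 : (range (t + 1 + K)).filter (inS t K j.val) =
        insert (t + 1 + K - j.val) ((range (t + 1 + j.val)).erase (j.val - 1)) := by
      ext a
      simp only [inS, mem_filter, mem_range, mem_insert, mem_erase]
      omega
    rw [h2, card_insert_of_notMem, card_erase_of_mem, card_range]
    · omega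
    · rw [mem_range]; omega
    · simp only [mem_erase, mem_range]
      omega
  · have h2 : (range (t + 1 + K)).filter (inS t K j.val) = range (t + 1 + j.val) := by
      ext a
      simp only [inS, mem_filter, mem_range]
      omega
    rw [h2, card_range]

/-- Number of `(k+1)`-subsets of `S` containing `a`. -/
lemma card_powersetCard_mem {α : Type} [DecidableEq α] (S : Finset α) (k : ℕ) (a : α) :
    ((powersetCard (k + 1) S).filter (fun X => a ∈ X)).card =
      if a ∈ S then (S.card - 1).choose k else 0 := by
  by_cases ha : a ∈ S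
  · rw [if_pos ha]
    have : (powersetCard (k + 1) S).filter (fun X => a ∈ X) =
        (powersetCard k (S.erase a)).image (insert a) := by
      ext X
      simp only [mem_filter, mem_powersetCard, mem_image]
      constructor
      · rintro ⟨⟨h1, h2⟩, h3⟩
        refine ⟨X.erase a, ⟨erase_subset_erase a h1, ?_⟩, insert_erase h3⟩
        rw [card_erase_of_mem h3, h2]; rfl
      · rintro ⟨Y, ⟨h1, h2⟩, rfl⟩
        have haY : a ∉ Y := fun h => notMem_erase a _ (h1 h)
        refine ⟨⟨?_, ?_⟩, mem_insert_self a Y⟩
        · rw [insert_subset_iff]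
          exact ⟨ha, h1.trans (erase_subset _ _)⟩
        · rw [card_insert_of_notMem haY, h2]
    rw [this, card_image_of_injOn, card_powersetCard, card_erase_of_mem ha]
    intro Y hY Y' hY' h
    rw [mem_coe, mem_powersetCard] at hY hY'
    have haY : a ∉ Y := fun h => notMem_erase a _ (hY.1 h)
    have haY' : a ∉ Y' := fun h => notMem_erase a _ (hY'.1 h)
    have := congrArg (fun S => S.erase a) h
    simpa [erase_insert haY, erase_insert haY'] using this
  · rw [if_neg ha, card_eq_zero, filter_eq_empty_iff]
    intro X hX hX'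
    rw [mem_powersetCard] at hX
    exact ha (hX.1 hX')

/-- the families of subsets -/
def fam (t K : ℕ) : Option (Fin K) → Finset (Finset (Fin (t + 1 + K)))
  | none => powersetCard (t + 2) univ
  | some j => powersetCard (t + 1) (SF t K j)

/-- the clique encoded by a pair -/
def cl (t K : ℕ) : Option (Fin K) → Finset (Fin (t + 1 + K)) → Finset (Fin (t + 1 + K) ⊕ Fin K)
  | none, X => X.map Function.Embedding.inl
  | some j, X => insert (Sum.inr j) (X.map Function.Embedding.inl)

lemma inl_mem_cl (t K : ℕ) (o : Option (Fin K)) (X : Finset (Fin (t + 1 + K)))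
    (a : Fin (t + 1 + K)) : Sum.inl a ∈ cl t K o X ↔ a ∈ X := by
  rcases o with _ | j <;> simp [cl]

lemma inr_mem_cl (t K : ℕ) (o : Option (Fin K)) (X : Finset (Fin (t + 1 + K)))
    (j : Fin K) : Sum.inr j ∈ cl t K o X ↔ o = some j := by
  rcases o with _ | i
  · simp [cl]
  · simp [cl, eq_comm]

lemma cliques_eq (t K : ℕ) (x : Fin (t + 1 + K) ⊕ Fin K) :
    {T : Finset (Fin (t + 1 + K) ⊕ Fin K) | (gr t K).IsNClique (t + 2) T ∧ x ∈ T} =
      (fun q : (_ : Option (Fin K)) × Finset (Fin (t + 1 + K)) => cl t K q.1 q.2) ''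
        ((univ : Finset (Option (Fin K))).sigma (fun o => (fam t K o).filter
          (fun X => x ∈ cl t K o X)) : Set _) := by
  ext T
  constructor
  · rintro ⟨hT, hx⟩
    set X : Finset (Fin (t + 1 + K)) := univ.filter fun a => Sum.inl a ∈ T with hX
    have hXm : ∀ a, a ∈ X ↔ Sum.inl a ∈ T := fun a => by simp [hX]
    by_cases hB : ∃ j : Fin K, Sum.inr j ∈ T
    · obtain ⟨j, hj⟩ := hB
      have hTeq : T = cl t K (some j) X := by
        ext v
        rcases v with a | i
        · rw [inl_mem_cl, hXm]
        · rw [inr_mem_cl]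
          constructor
          · intro hi
            by_contra hne
            have hij : (Sum.inr i : Fin (t + 1 + K) ⊕ Fin K) ≠ Sum.inr j := by
              intro h
              apply hne
              rw [Sum.inr_injective h]
            exact adj_rr t K i j (hT.isClique hi hj hij)
          · intro h
            rw [← Option.some_injective _ h]
            exact hj
      have hcard : X.card = t + 1 := by
        have h1 := hT.card_eq
        rw [hTeq, cl, card_insert_of_notMem (by simp), card_map] at h1
        omega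
      refine ⟨⟨some j, X⟩, ?_, hTeq.symm⟩
      rw [coe_sigma]
      refine ⟨by simp, ?_⟩
      simp only [coe_filter, Set.mem_ofPred_eq, fam]
      refine ⟨?_, by rw [← hTeq]; exact hx⟩
      rw [mem_powersetCard]
      refine ⟨?_, hcard⟩
      intro a ha
      rw [SF, mem_filter]
      refine ⟨mem_univ _, ?_⟩
      have h2 : (gr t K).Adj (Sum.inl a) (Sum.inr j) :=
        hT.isClique ((hXm a).mp ha) hj (by simp)
      exact h2
    · push Not at hB
      have hTeq : T = cl t K none X := by
        ext v
        rcases v with a | i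
        · rw [inl_mem_cl, hXm]
        · rw [inr_mem_cl]
          simp [hB i]
      have hcard : X.card = t + 2 := by
        have h1 := hT.card_eq
        rw [hTeq, cl, card_map] at h1
        omega
      refine ⟨⟨none, X⟩, ?_, hTeq.symm⟩
      rw [coe_sigma]
      refine ⟨by simp, ?_⟩
      simp only [coe_filter, Set.mem_ofPred_eq, fam]
      refine ⟨?_, by rw [← hTeq]; exact hx⟩
      rw [mem_powersetCard]
      exact ⟨subset_univ _, hcard⟩
  · rintro ⟨⟨o, X⟩, hq, rfl⟩
    rw [mem_coe, mem_sigma] at hq
    obtain ⟨-, hq⟩ := hq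
    rw [mem_filter] at hq
    obtain ⟨hf, hx⟩ := hq
    refine ⟨?_, hx⟩
    rcases o with _ | j
    · simp only [fam] at hf
      rw [mem_powersetCard] at hf
      constructor
      · intro v hv w hw hvw
        rcases v with a | i
        · rcases w with b | k
          · rw [adj_ll]
            intro h; exact hvw (by rw [h])
          · rw [mem_coe, inr_mem_cl] at hw
            exact absurd hw (by simp)
        · rw [mem_coe, inr_mem_cl] at hv
          exact absurd hv (by simp)
      · simp only [cl, card_map]
        exact hf.2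
    · simp only [fam] at hf
      rw [mem_powersetCard] at hf
      have hS : ∀ a ∈ X, inS t K j.val a.val := fun a ha => by
        have := hf.1 ha
        rw [SF, mem_filter] at this
        exact this.2
      constructor
      · intro v hv w hw hvw
        rcases v with a | i
        · rw [mem_coe, inl_mem_cl] at hv
          rcases w with b | k
          · rw [adj_ll]
            intro h; exact hvw (by rw [h])
          · rw [mem_coe, inr_mem_cl] at hw
            rw [adj_lr, ← Option.some_injective _ hw]
            exact hS a hv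
        · rw [mem_coe, inr_mem_cl] at hv
          rcases w with b | k
          · rw [mem_coe, inl_mem_cl] at hw
            rw [adj_rl, ← Option.some_injective _ hv]
            exact hS b hw
          · rw [mem_coe, inr_mem_cl] at hw
            exfalso
            apply hvw
            rw [hv] at hw
            rw [Option.some_injective _ hw]
      · simp only [cl]
        rw [card_insert_of_notMem (by simp), card_map, hf.2]

lemma cl_injOn (t K : ℕ) (s : Set ((_ : Option (Fin K)) × Finset (Fin (t + 1 + K)))) :
    Set.InjOn (fun q : (_ : Option (Fin K)) × Finset (Fin (t + 1 + K)) => cl t K q.1 q.2) s := by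
  rintro ⟨o, X⟩ _ ⟨o', X'⟩ _ h
  have h' : cl t K o X = cl t K o' X' := h
  have hX : X = X' := by
    ext a
    rw [← inl_mem_cl t K o, h', inl_mem_cl]
  have ho : o = o' := by
    rcases o with _ | j
    · rcases o' with _ | j'
      · rfl
      · exfalso
        have := (inr_mem_cl t K (some j') X' j').mpr rfl
        rw [← h', inr_mem_cl] at this
        exact absurd this (by simp)
    · have := (inr_mem_cl t K (some j) X j).mpr rfl
      rw [h', inr_mem_cl] at this
      exact this.symm
  rw [hX, ho]

lemma fDegree_eq_sum (t K : ℕ) (x : Fin (t + 1 + K) ⊕ Fin K) :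
    fDegree (⊤ : SimpleGraph (Fin (t + 2))) (gr t K) x =
      ((fam t K none).filter (fun X => x ∈ cl t K none X)).card +
        ∑ j : Fin K, ((fam t K (some j)).filter (fun X => x ∈ cl t K (some j) X)).card := by
  rw [fDegree_top, cliques_eq, (cl_injOn t K _).ncard_image, Set.ncard_coe_finset, card_sigma,
    Fintype.sum_option]

lemma fDegree_inr (t K : ℕ) (hK : 2 * t + 1 ≤ K) (j : Fin K) :
    fDegree (⊤ : SimpleGraph (Fin (t + 2))) (gr t K) (Sum.inr j) =
      (t + 1 + j.val).choose (t + 1) := by
  rw [fDegree_eq_sum]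
  have h1 : ((fam t K none).filter (fun X => Sum.inr j ∈ cl t K none X)).card = 0 := by
    rw [card_eq_zero, filter_eq_empty_iff]
    intro X _ h
    rw [inr_mem_cl] at h
    exact absurd h (by simp)
  rw [h1, zero_add, sum_eq_single j]
  · rw [filter_true_of_mem]
    · simp only [fam]
      rw [card_powersetCard, card_SF t K hK]
    · intro X _
      rw [inr_mem_cl]
  · intro i _ hij
    rw [card_eq_zero, filter_eq_empty_iff]
    intro X _ h
    rw [inr_mem_cl] at h
    exact hij (Option.some_injective _ h)
  · intro h; exact absurd (mem_univ j) h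

/-- weight of the `b`-vertices adjacent to `a` -/
def w (t K a : ℕ) : ℕ := ∑ j ∈ range K, if inS t K j a then (t + j).choose t else 0

/-- weight of the `b`-vertices not adjacent to `a` -/
def v (t K a : ℕ) : ℕ := ∑ j ∈ range K, if inS t K j a then 0 else (t + j).choose t

lemma fDegree_inl (t K : ℕ) (hK : 2 * t + 1 ≤ K) (a : Fin (t + 1 + K)) :
    fDegree (⊤ : SimpleGraph (Fin (t + 2))) (gr t K) (Sum.inl a) =
      (t + K).choose (t + 1) + w t K a.val := by
  rw [fDegree_eq_sum]
  congr 1
  · simp only [inl_mem_cl, fam]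
    rw [card_powersetCard_mem, if_pos (mem_univ a), card_univ, Fintype.card_fin]
    congr 1
    omega
  · rw [w, ← Fin.sum_univ_eq_sum_range (fun j => if inS t K j a.val then (t + j).choose t else 0) K]
    refine sum_congr rfl fun j _ => ?_
    simp only [inl_mem_cl, fam]
    rw [card_powersetCard_mem, card_SF t K hK]
    have h1 : a ∈ SF t K j ↔ inS t K j.val a.val := by simp [SF]
    simp only [h1]
    congr 2
    omega

lemma hockey (t k : ℕ) : ∑ j ∈ range k, (t + j).choose t = (t + k).choose (t + 1) := by
  induction k with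
  | zero => simp
  | succ k ih =>
    rw [sum_range_succ, ih, ← Nat.add_assoc, Nat.choose_succ_succ (t + k) t, Nat.succ_eq_add_one]
    omega

lemma w_add_v (t K a : ℕ) : w t K a + v t K a = (t + K).choose (t + 1) := by
  rw [w, v, ← sum_add_distrib, ← hockey]
  refine sum_congr rfl fun j _ => ?_
  split_ifs <;> simp

lemma v_eq_filter (t K a : ℕ) :
    v t K a = ∑ j ∈ (range K).filter (fun j => ¬ inS t K j a), (t + j).choose t := by
  rw [v, sum_filter]
  refine sum_congr rfl fun j _ => ?_
  split_ifs <;> simp_all

lemma v_I (t K a : ℕ) (hK : 2 * t + 1 ≤ K) (ha : a < t) : v t K a = (t + (a + 1)).choose t := by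
  rw [v_eq_filter]
  have : (range K).filter (fun j => ¬ inS t K j a) = {a + 1} := by
    ext j
    rw [mem_filter]
    simp only [inS, mem_range, mem_singleton]
    omega
  rw [this, sum_singleton]

lemma v_II (t K a : ℕ) (h1 : t ≤ a) (h2 : a ≤ K) : v t K a = a.choose (t + 1) := by
  rw [v_eq_filter]
  have : (range K).filter (fun j => ¬ inS t K j a) = range (a - t) := by
    ext j
    rw [mem_filter]
    simp only [inS, mem_range]
    omega
  rw [this, hockey]
  congr 1
  omega

lemma v_III (t K a : ℕ) (hK : 2 * t + 1 ≤ K) (h1 : K < a) (h2 : a < t + 1 + K) :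
    v t K a + (t + (t + 1 + K - a)).choose t = a.choose (t + 1) := by
  rw [v_eq_filter]
  have : (range K).filter (fun j => ¬ inS t K j a) = (range (a - t)).erase (t + 1 + K - a) := by
    ext j
    rw [mem_filter]
    simp only [inS, mem_range, mem_erase]
    omega
  rw [this, sum_erase_add (range (a - t)) (fun j => (t + j).choose t)
    (by rw [mem_range]; omega), hockey]
  congr 1
  omega

lemma choose_lt {a b k : ℕ} (hk : 1 ≤ k) (hka : k ≤ b) (hab : a < b) :
    a.choose k < b.choose k := by
  obtain ⟨b, rfl⟩ : ∃ c, b = c + 1 := ⟨b - 1, by omega⟩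
  obtain ⟨k, rfl⟩ : ∃ c, k = c + 1 := ⟨k - 1, by omega⟩
  have h1 : a.choose (k + 1) ≤ b.choose (k + 1) := Nat.choose_le_choose _ (by omega)
  have h2 : 0 < b.choose k := Nat.choose_pos (by omega)
  rw [Nat.choose_succ_succ b k, Nat.succ_eq_add_one]
  omega

lemma bound_I (t K a : ℕ) (hK : 2 * t + 1 ≤ K) (ha : a < t) :
    (t + (a + 1)).choose (t + 1) < v t K a ∧ v t K a < (t + (a + 1) + 1).choose (t + 1) := by
  rw [v_I t K a hK ha]
  constructor
  · have h1 := Nat.choose_succ_right_eq (t + (a + 1)) t
    have h2 : t + (a + 1) - t = a + 1 := by omega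
    rw [h2] at h1
    have h3 : 0 < (t + (a + 1)).choose t := Nat.choose_pos (by omega)
    have h4 : (t + (a + 1)).choose t * (a + 1) < (t + (a + 1)).choose t * (t + 1) :=
      Nat.mul_lt_mul_of_pos_left (by omega) h3
    rw [← h1] at h4
    exact Nat.lt_of_mul_lt_mul_right h4
  · rw [Nat.choose_succ_succ (t + (a + 1)) t, Nat.succ_eq_add_one]
    have : 0 < (t + (a + 1)).choose (t + 1) := Nat.choose_pos (by omega)
    omega

lemma bound_III (t K a : ℕ) (ht : 1 ≤ t) (hK : 2 * t + 1 ≤ K) (h1 : K < a) (h2 : a < t + 1 + K) :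
    (a - 1).choose (t + 1) < v t K a ∧ v t K a < a.choose (t + 1) := by
  have h3 := v_III t K a hK h1 h2
  have h4 : 0 < (t + (t + 1 + K - a)).choose t := Nat.choose_pos (by omega)
  have h5 : (t + (t + 1 + K - a)).choose t < (a - 1).choose t :=
    choose_lt ht (by omega) (by omega)
  have h6 : a.choose (t + 1) = (a - 1).choose t + (a - 1).choose (t + 1) := by
    obtain ⟨b, rfl⟩ : ∃ c, a = c + 1 := ⟨a - 1, by omega⟩
    rw [Nat.choose_succ_succ b t]
    rfl
  omega

lemma v_lt_or (t K : ℕ) (ht : 1 ≤ t) (hK : 2 * t + 1 ≤ K) (a b : ℕ) (hab : a < b)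
    (hb : b < t + 1 + K) : v t K a ≠ v t K b := by
  rcases Nat.lt_or_ge a t with haI | haI
  · have hA := bound_I t K a hK haI
    rcases Nat.lt_or_ge b t with hbI | hbI
    · rw [v_I t K a hK haI, v_I t K b hK hbI]
      exact (choose_lt ht (by omega) (by omega)).ne
    · rcases Nat.lt_or_ge K b with hbIII | hbII
      · have hB := bound_III t K b ht hK hbIII hb
        have : (t + (a + 1) + 1).choose (t + 1) ≤ (b - 1).choose (t + 1) :=
          Nat.choose_le_choose _ (by omega)
        omega
      · rw [v_II t K b hbI hbII]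
        rcases Nat.lt_or_ge (t + (a + 1)) b with h | h
        · have : (t + (a + 1) + 1).choose (t + 1) ≤ b.choose (t + 1) :=
            Nat.choose_le_choose _ (by omega)
          omega
        · have : b.choose (t + 1) ≤ (t + (a + 1)).choose (t + 1) :=
            Nat.choose_le_choose _ (by omega)
          omega
  · rcases Nat.lt_or_ge K a with haIII | haII
    · have hA := bound_III t K a ht hK haIII (by omega)
      have hB := bound_III t K b ht hK (by omega) hb
      have : a.choose (t + 1) ≤ (b - 1).choose (t + 1) := Nat.choose_le_choose _ (by omega)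
      omega
    · rw [v_II t K a haI haII]
      rcases Nat.lt_or_ge K b with hbIII | hbII
      · have hB := bound_III t K b ht hK hbIII hb
        have : a.choose (t + 1) ≤ (b - 1).choose (t + 1) := Nat.choose_le_choose _ (by omega)
        omega
      · rw [v_II t K b (by omega) hbII]
        exact (choose_lt (by omega) (by omega) hab).ne

lemma v_lt (t K : ℕ) (ht : 1 ≤ t) (hK : 2 * t + 1 ≤ K) (a : ℕ) (ha : a < t + 1 + K) :
    v t K a < (t + K).choose (t + 1) := by
  rcases Nat.lt_or_ge a t with haI | haI
  · have hA := bound_I t K a hK haI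
    have : (t + (a + 1) + 1).choose (t + 1) ≤ (t + K).choose (t + 1) :=
      Nat.choose_le_choose _ (by omega)
    omega
  · rcases Nat.lt_or_ge K a with haIII | haII
    · have hA := bound_III t K a ht hK haIII (by omega)
      have : a.choose (t + 1) ≤ (t + K).choose (t + 1) := Nat.choose_le_choose _ (by omega)
      omega
    · rw [v_II t K a haI haII]
      exact choose_lt (by omega) (by omega) (by omega)

lemma irregular (t K : ℕ) (ht : 1 ≤ t) (hK : 2 * t + 1 ≤ K) :
    FIrregular (⊤ : SimpleGraph (Fin (t + 2))) (gr t K) := by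
  have hlr : ∀ (a : Fin (t + 1 + K)) (j : Fin K),
      fDegree (⊤ : SimpleGraph (Fin (t + 2))) (gr t K) (Sum.inr j) <
        fDegree (⊤ : SimpleGraph (Fin (t + 2))) (gr t K) (Sum.inl a) := by
    intro a j
    rw [fDegree_inr t K hK, fDegree_inl t K hK]
    have h1 := v_lt t K ht hK a.val a.2
    have h2 := w_add_v t K a.val
    have h3 : (t + 1 + j.val).choose (t + 1) ≤ (t + K).choose (t + 1) :=
      Nat.choose_le_choose _ (by have := j.2; omega)
    omega
  rintro (a | j) (b | k) hxy h
  · rw [fDegree_inl t K hK, fDegree_inl t K hK] at h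
    have h1 := w_add_v t K a.val
    have h2 := w_add_v t K b.val
    have h3 : v t K a.val = v t K b.val := by omega
    rcases lt_trichotomy a.val b.val with h4 | h4 | h4
    · exact v_lt_or t K ht hK _ _ h4 b.2 h3
    · exact hxy (by rw [Fin.ext h4])
    · exact v_lt_or t K ht hK _ _ h4 a.2 h3.symm
  · exact (hlr a k).ne h.symm
  · exact (hlr b j).ne h
  · rw [fDegree_inr t K hK, fDegree_inr t K hK] at h
    rcases lt_trichotomy j.val k.val with h4 | h4 | h4
    · exact (choose_lt (by omega) (by omega) (by omega)).ne h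
    · exact hxy (by rw [Fin.ext h4])
    · exact (choose_lt (by omega) (by omega) (by omega)).ne h.symm

/-- For every `n ≥ 3` there are infinitely many pairwise non-isomorphic finite
`K_n`-irregular graphs. -/
theorem result : ∀ n : ℕ, 3 ≤ n → InfinitelyManyIrregular (⊤ : SimpleGraph (Fin n)) := by
  intro n hn
  obtain ⟨t, rfl⟩ : ∃ t, n = t + 2 := ⟨n - 2, by omega⟩
  refine ⟨fun i => Fin (t + 1 + (2 * t + 1 + i)) ⊕ Fin (2 * t + 1 + i),
    fun i => gr t (2 * t + 1 + i), fun i => inferInstance,
    fun i => irregular t _ (by omega) (by omega), ?_⟩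
  rintro i j hij ⟨φ⟩
  have := Fintype.card_congr φ.toEquiv
  simp only [Fintype.card_sum, Fintype.card_fin] at this
  omega

end Pool.Agent.Results.MP_5484c7_co.CliqueIrregular
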