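import Mathlib
import Pool.Agent.helper19.FDegree

set_option autoImplicit false
set_option maxHeartbeats 1000000

/-!
For every `n ≥ 2` there are infinitely many `K_{1,n}`-irregular graphs: the half graph on
`1, …, 2m` (with `i ~ j` iff `i + j ≥ 2m + 1`) with a pendant vertex `0` attached at `m`,
for every `m ≥ n + 1`.
-/

namespace Pool.Agent.Results.MP_5484c7_co.StarIrregular

open Pool.Agent.H19 Finset

/-- Adjacency on natural numbers. -/
def adjN (m i j : ℕ) : Prop :=
  i ≠ j ∧ ((1 ≤ i ∧ 1 ≤ j ∧ 2 * m + 1 ≤ i + j) ∨ (i = 0 ∧ j = m) ∨ (i = m ∧ j = 0))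

instance (m i j : ℕ) : Decidable (adjN m i j) := by unfold adjN; infer_instance

/-- The half graph with a pendant vertex. -/
def halfPendant (m : ℕ) : SimpleGraph (Fin (2 * m + 1)) where
  Adj i j := adjN m i.val j.val
  symm := ⟨by
    intro i j h
    unfold adjN at *
    omega⟩
  loopless := ⟨by
    intro i h
    exact h.1 rfl⟩

instance (m : ℕ) : DecidableRel (halfPendant m).Adj := fun i j =>
  inferInstanceAs (Decidable (adjN m i.val j.val))

/-- neighbours as natural numbers -/
def nb (m i : ℕ) : Finset ℕ := (range (2 * m + 1)).filter (adjN m i)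

/-- degrees -/
def dg (m i : ℕ) : ℕ := (nb m i).card

/-- the star degree -/
def sd (m n i : ℕ) : ℕ := (dg m i).choose n + ∑ j ∈ nb m i, (dg m j - 1).choose (n - 1)

lemma map_neighborFinset (m : ℕ) (x : Fin (2 * m + 1)) :
    ((halfPendant m).neighborFinset x).map Fin.valEmbedding = nb m x.val := by
  ext j
  simp only [mem_map, SimpleGraph.mem_neighborFinset, Fin.valEmbedding_apply, nb, mem_filter,
    mem_range]
  constructor
  · rintro ⟨y, hy, rfl⟩
    exact ⟨y.2, hy⟩
  · rintro ⟨hj, h⟩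
    exact ⟨⟨j, hj⟩, h, rfl⟩

lemma degree_eq (m : ℕ) (x : Fin (2 * m + 1)) : (halfPendant m).degree x = dg m x.val := by
  rw [dg, ← map_neighborFinset, card_map, SimpleGraph.card_neighborFinset_eq_degree]

lemma fDegree_eq (m n : ℕ) (hn : 2 ≤ n) (x : Fin (2 * m + 1)) :
    fDegree (completeBipartiteGraph (Fin 1) (Fin n)) (halfPendant m) x = sd m n x.val := by
  rw [fDegree_star _ n hn, sd, ← map_neighborFinset, sum_map]
  simp only [degree_eq, Fin.valEmbedding_apply]

lemma nb_zero (m : ℕ) (hm : 1 ≤ m) : nb m 0 = {m} := by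
  ext j
  simp only [nb, adjN, mem_filter, mem_range, mem_singleton, true_and]
  omega

lemma nb_low (m i : ℕ) (h1 : 1 ≤ i) (h2 : i < m) : nb m i = Ico (2 * m + 1 - i) (2 * m + 1) := by
  ext j
  simp only [nb, adjN, mem_filter, mem_range, mem_Ico]
  omega

lemma nb_mid (m : ℕ) (hm : 1 ≤ m) : nb m m = insert 0 (Ico (m + 1) (2 * m + 1)) := by
  ext j
  simp only [nb, adjN, mem_filter, mem_range, mem_insert, mem_Ico, true_and]
  omega

lemma nb_high (m i : ℕ) (h1 : m < i) (h2 : i ≤ 2 * m) :
    nb m i = (Ico (2 * m + 1 - i) (2 * m + 1)).erase i := by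
  ext j
  simp only [nb, adjN, mem_filter, mem_range, mem_erase, mem_Ico]
  omega

lemma dg_zero (m : ℕ) (hm : 1 ≤ m) : dg m 0 = 1 := by
  rw [dg, nb_zero m hm, card_singleton]

lemma dg_low (m i : ℕ) (h1 : 1 ≤ i) (h2 : i < m) : dg m i = i := by
  rw [dg, nb_low m i h1 h2, Nat.card_Ico]
  omega

lemma dg_mid (m : ℕ) (hm : 1 ≤ m) : dg m m = m + 1 := by
  rw [dg, nb_mid m hm, card_insert_of_notMem (by simp), Nat.card_Ico]
  omega

lemma dg_high (m i : ℕ) (h1 : m < i) (h2 : i ≤ 2 * m) : dg m i = i - 1 := by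
  rw [dg, nb_high m i h1 h2, card_erase_of_mem, Nat.card_Ico]
  · omega
  · rw [mem_Ico]
    omega

/-- the weight function -/
def wt (m n j : ℕ) : ℕ := (dg m j - 1).choose (n - 1)

lemma sd_eq (m n i : ℕ) : sd m n i = (dg m i).choose n + ∑ j ∈ nb m i, wt m n j := rfl

lemma choose_pos' {a b : ℕ} (h : b ≤ a) : 0 < a.choose b := Nat.choose_pos h

lemma sd_zero (m n : ℕ) (hm : 1 ≤ m) (hn : 2 ≤ n) : sd m n 0 = m.choose (n - 1) := by
  rw [sd_eq, nb_zero m hm, sum_singleton, wt, dg_mid m hm, dg_zero m hm,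
    Nat.choose_eq_zero_of_lt (by omega : 1 < n)]
  simp

lemma sd_zero_lt_one (m n : ℕ) (hn : 2 ≤ n) (hm : n + 1 ≤ m) : sd m n 0 < sd m n 1 := by
  rw [sd_zero m n (by omega) hn, sd_eq, nb_low m 1 le_rfl (by omega)]
  have h1 : Ico (2 * m + 1 - 1) (2 * m + 1) = {2 * m} := by
    ext j; simp only [mem_Ico, mem_singleton]; omega
  rw [h1, sum_singleton, wt, dg_high m (2 * m) (by omega) le_rfl]
  have h2 : m.choose (n - 1) < (2 * m - 1 - 1).choose (n - 1) := by
    have h3 : m.choose (n - 1) < (m + 1).choose (n - 1) := by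
      obtain ⟨k, hk⟩ : ∃ k, n - 1 = k + 1 := ⟨n - 2, by omega⟩
      rw [hk, Nat.choose_succ_succ m k, Nat.succ_eq_add_one]
      have : 0 < m.choose k := choose_pos' (by omega)
      omega
    exact lt_of_lt_of_le h3 (Nat.choose_le_choose _ (by omega))
  omega

lemma sd_low (m n i : ℕ) (hn : 2 ≤ n) (hm : n + 1 ≤ m) (h1 : 1 ≤ i) (h2 : i + 1 < m) :
    sd m n i < sd m n (i + 1) := by
  rw [sd_eq, sd_eq, nb_low m i h1 (by omega), nb_low m (i + 1) (by omega) h2,
    dg_low m i h1 (by omega), dg_low m (i + 1) (by omega) h2]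
  have h3 : Ico (2 * m + 1 - (i + 1)) (2 * m + 1) =
      insert (2 * m - i) (Ico (2 * m + 1 - i) (2 * m + 1)) := by
    ext j; simp only [mem_Ico, mem_insert]; omega
  rw [h3, sum_insert (by simp only [mem_Ico]; omega)]
  have h4 : 0 < wt m n (2 * m - i) := by
    rw [wt, dg_high m _ (by omega) (by omega)]
    exact choose_pos' (by omega)
  have h5 : i.choose n ≤ (i + 1).choose n := Nat.choose_le_choose _ (by omega)
  omega

lemma sd_m1 (m n : ℕ) (hn : 2 ≤ n) (hm : n + 1 ≤ m) : sd m n (m - 1) < sd m n (m + 1) := by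
  rw [sd_eq, sd_eq, nb_low m (m - 1) (by omega) (by omega), nb_high m (m + 1) (by omega) (by omega),
    dg_low m (m - 1) (by omega) (by omega), dg_high m (m + 1) (by omega) (by omega)]
  have h3 : (Ico (2 * m + 1 - (m + 1)) (2 * m + 1)).erase (m + 1) =
      insert m (Ico (2 * m + 1 - (m - 1)) (2 * m + 1)) := by
    ext j; simp only [mem_Ico, mem_insert, mem_erase]; omega
  rw [h3, sum_insert (by simp only [mem_Ico]; omega)]
  have h4 : 0 < wt m n m := by
    rw [wt, dg_mid m (by omega)]
    exact choose_pos' (by omega)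
  have h5 : (m - 1).choose n ≤ (m + 1 - 1).choose n := Nat.choose_le_choose _ (by omega)
  omega

lemma sd_m2 (m n : ℕ) (hn : 2 ≤ n) (hm : n + 1 ≤ m) : sd m n (m + 1) < sd m n m := by
  rw [sd_eq, sd_eq, nb_mid m (by omega), nb_high m (m + 1) (by omega) (by omega),
    dg_mid m (by omega), dg_high m (m + 1) (by omega) (by omega)]
  have h3 : (Ico (2 * m + 1 - (m + 1)) (2 * m + 1)).erase (m + 1) =
      insert m (Ico (m + 2) (2 * m + 1)) := by
    ext j; simp only [mem_Ico, mem_insert, mem_erase]; omega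
  have h4 : (insert 0 (Ico (m + 1) (2 * m + 1)) : Finset ℕ) =
      insert 0 (insert (m + 1) (Ico (m + 2) (2 * m + 1))) := by
    ext j; simp only [mem_Ico, mem_insert]; omega
  rw [h3, h4, sum_insert (by simp only [mem_Ico]; omega),
    sum_insert (by simp only [mem_Ico, mem_insert]; omega),
    sum_insert (by simp only [mem_Ico]; omega)]
  have e1 : wt m n m = m.choose (n - 1) := by rw [wt, dg_mid m (by omega)]; rfl
  have e2 : wt m n (m + 1) = (m - 1).choose (n - 1) := by
    rw [wt, dg_high m _ (by omega) (by omega)]; rfl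
  have e3 : 0 < (m - 1).choose (n - 1) := choose_pos' (by omega)
  have e4 : (m + 1).choose n = m.choose (n - 1) + m.choose n := by
    obtain ⟨k, hk⟩ : ∃ k, n = k + 1 := ⟨n - 1, by omega⟩
    subst hk
    rw [Nat.choose_succ_succ]
    simp
  have e5 : (m + 1 - 1).choose n = m.choose n := by simp
  rw [e1, e2, e4, e5]
  omega

lemma sd_m3 (m n : ℕ) (hn : 2 ≤ n) (hm : n + 1 ≤ m) : sd m n m < sd m n (m + 2) := by
  rw [sd_eq, sd_eq, nb_mid m (by omega), nb_high m (m + 2) (by omega) (by omega),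
    dg_mid m (by omega), dg_high m (m + 2) (by omega) (by omega)]
  have h3 : (Ico (2 * m + 1 - (m + 2)) (2 * m + 1)).erase (m + 2) =
      insert (m - 1) (insert m (insert (m + 1) (Ico (m + 3) (2 * m + 1)))) := by
    ext j; simp only [mem_Ico, mem_insert, mem_erase]; omega
  have h4 : (insert 0 (Ico (m + 1) (2 * m + 1)) : Finset ℕ) =
      insert 0 (insert (m + 1) (insert (m + 2) (Ico (m + 3) (2 * m + 1)))) := by
    ext j; simp only [mem_Ico, mem_insert]; omega
  rw [h3, h4, sum_insert (by simp only [mem_Ico, mem_insert]; omega),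
    sum_insert (by simp only [mem_Ico, mem_insert]; omega),
    sum_insert (by simp only [mem_Ico]; omega),
    sum_insert (by simp only [mem_Ico, mem_insert]; omega),
    sum_insert (by simp only [mem_Ico, mem_insert]; omega),
    sum_insert (by simp only [mem_Ico]; omega)]
  have e0 : wt m n 0 = 0 := by
    rw [wt, dg_zero m (by omega)]
    exact Nat.choose_eq_zero_of_lt (by omega)
  have e1 : wt m n m = m.choose (n - 1) := by rw [wt, dg_mid m (by omega)]; rfl
  have e2 : wt m n (m + 2) = m.choose (n - 1) := by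
    rw [wt, dg_high m _ (by omega) (by omega)]; rfl
  have e3 : 0 < wt m n (m - 1) := by
    rw [wt, dg_low m _ (by omega) (by omega)]
    exact choose_pos' (by omega)
  have e5 : (m + 2 - 1).choose n = (m + 1).choose n := by
    congr 1
  rw [e0, e1, e2, e5]
  omega

lemma sd_high (m n i : ℕ) (hn : 2 ≤ n) (hm : n + 1 ≤ m) (h1 : m < i) (h2 : i + 1 ≤ 2 * m) :
    sd m n i < sd m n (i + 1) := by
  rw [sd_eq, sd_eq, nb_high m i h1 (by omega), nb_high m (i + 1) (by omega) h2,
    dg_high m i h1 (by omega), dg_high m (i + 1) (by omega) h2]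
  have a1 := add_sum_erase (Ico (2 * m + 1 - i) (2 * m + 1)) (wt m n)
    (show i ∈ Ico (2 * m + 1 - i) (2 * m + 1) by rw [mem_Ico]; omega)
  have a2 := add_sum_erase (Ico (2 * m + 1 - (i + 1)) (2 * m + 1)) (wt m n)
    (show i + 1 ∈ Ico (2 * m + 1 - (i + 1)) (2 * m + 1) by rw [mem_Ico]; omega)
  have h3 : Ico (2 * m + 1 - (i + 1)) (2 * m + 1) =
      insert (2 * m - i) (Ico (2 * m + 1 - i) (2 * m + 1)) := by
    ext j; simp only [mem_Ico, mem_insert]; omega
  have a3 : ∑ j ∈ Ico (2 * m + 1 - (i + 1)) (2 * m + 1), wt m n j =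
      wt m n (2 * m - i) + ∑ j ∈ Ico (2 * m + 1 - i) (2 * m + 1), wt m n j := by
    rw [h3, sum_insert (by simp only [mem_Ico]; omega)]
  have e1 : wt m n i = (i - 2).choose (n - 1) := by
    rw [wt, dg_high m _ h1 (by omega)]; rfl
  have e2 : wt m n (i + 1) = (i - 1).choose (n - 1) := by
    rw [wt, dg_high m _ (by omega) (by omega)]; rfl
  have e3 : (i + 1 - 1).choose n = (i - 1).choose (n - 1) + (i - 1).choose n := by
    obtain ⟨k, hk⟩ : ∃ k, n = k + 1 := ⟨n - 1, by omega⟩
    obtain ⟨l, hl⟩ : ∃ l, i = l + 1 := ⟨i - 1, by omega⟩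
    subst hk hl
    simp only [Nat.add_sub_cancel]
    rw [Nat.choose_succ_succ]
  have e4 : 0 < (i - 2).choose (n - 1) := choose_pos' (by omega)
  rw [e1] at a1
  rw [e2] at a2
  rw [e3]
  omega

/-- the transposition of `m` and `m + 1` -/
def sw (m i : ℕ) : ℕ := if i = m then m + 1 else if i = m + 1 then m else i

lemma sw_sw (m i : ℕ) : sw m (sw m i) = i := by
  unfold sw
  split_ifs <;> omega

lemma sw_le (m i : ℕ) (hm : 1 ≤ m) (hi : i ≤ 2 * m) : sw m i ≤ 2 * m := by
  unfold sw
  split_ifs <;> omega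

lemma step (m n : ℕ) (hn : 2 ≤ n) (hm : n + 1 ≤ m) (i : ℕ) (hi : i + 1 ≤ 2 * m) :
    sd m n (sw m i) < sd m n (sw m (i + 1)) := by
  rcases Nat.eq_zero_or_pos i with h | h
  · subst h
    have e1 : sw m 0 = 0 := by
      unfold sw
      rw [if_neg (by omega), if_neg (by omega)]
    have e2 : sw m (0 + 1) = 1 := by unfold sw; split_ifs <;> omega
    rw [e1, e2]
    exact sd_zero_lt_one m n hn hm
  · rcases lt_trichotomy (i + 1) m with h1 | h1 | h1
    · have e1 : sw m i = i := by unfold sw; split_ifs <;> omega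
      have e2 : sw m (i + 1) = i + 1 := by unfold sw; split_ifs <;> omega
      rw [e1, e2]
      exact sd_low m n i hn hm h h1
    · have e1 : sw m i = m - 1 := by unfold sw; split_ifs <;> omega
      have e2 : sw m (i + 1) = m + 1 := by unfold sw; split_ifs <;> omega
      rw [e1, e2]
      exact sd_m1 m n hn hm
    · rcases lt_trichotomy i (m + 1) with h2 | h2 | h2
      · have e1 : sw m i = m + 1 := by unfold sw; split_ifs <;> omega
        have e2 : sw m (i + 1) = m := by unfold sw; split_ifs <;> omega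
        rw [e1, e2]
        exact sd_m2 m n hn hm
      · have e1 : sw m i = m := by unfold sw; split_ifs <;> omega
        have e2 : sw m (i + 1) = m + 2 := by unfold sw; split_ifs <;> omega
        rw [e1, e2]
        exact sd_m3 m n hn hm
      · have e1 : sw m i = i := by unfold sw; split_ifs <;> omega
        have e2 : sw m (i + 1) = i + 1 := by unfold sw; split_ifs <;> omega
        rw [e1, e2]
        exact sd_high m n i hn hm (by omega) hi

lemma mono (m n : ℕ) (hn : 2 ≤ n) (hm : n + 1 ≤ m) (i j : ℕ) (hij : i < j) (hj : j ≤ 2 * m) :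
    sd m n (sw m i) < sd m n (sw m j) := by
  induction j with
  | zero => omega
  | succ j ih =>
    rcases Nat.lt_succ_iff_lt_or_eq.mp hij with h | h
    · exact (ih h (by omega)).trans (step m n hn hm j hj)
    · rw [h]
      exact step m n hn hm j hj

lemma irregular (m n : ℕ) (hn : 2 ≤ n) (hm : n + 1 ≤ m) :
    FIrregular (completeBipartiteGraph (Fin 1) (Fin n)) (halfPendant m) := by
  intro x y hxy h
  rw [fDegree_eq m n hn, fDegree_eq m n hn] at h
  have hx : sw m (sw m x.val) = x.val := sw_sw m _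
  have hy : sw m (sw m y.val) = y.val := sw_sw m _
  have hxle : sw m x.val ≤ 2 * m := sw_le m _ (by omega) (by have := x.2; omega)
  have hyle : sw m y.val ≤ 2 * m := sw_le m _ (by omega) (by have := y.2; omega)
  rcases lt_trichotomy (sw m x.val) (sw m y.val) with h1 | h1 | h1
  · have := mono m n hn hm _ _ h1 hyle
    rw [hx, hy] at this
    omega
  · apply hxy
    apply Fin.ext
    rw [← hx, h1, hy]
  · have := mono m n hn hm _ _ h1 hxle
    rw [hx, hy] at this
    omega

/-- For every `n ≥ 2` there are infinitely many pairwise non-isomorphic finite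
`K_{1,n}`-irregular graphs. -/
theorem result : ∀ n : ℕ, 2 ≤ n →
    InfinitelyManyIrregular (completeBipartiteGraph (Fin 1) (Fin n)) := by
  intro n hn
  refine ⟨fun i => Fin (2 * (n + 1 + i) + 1), fun i => halfPendant (n + 1 + i),
    fun i => inferInstance, fun i => irregular _ n hn (by omega), ?_⟩
  rintro i j hij ⟨φ⟩
  have := Fintype.card_congr φ.toEquiv
  simp only [Fintype.card_fin] at this
  omega

end Pool.Agent.Results.MP_5484c7_co.StarIrregular
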